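import Pool.Agent.N245.DS.Ana
import Pool.Agent.N273.LT.Sum3

/-!
# The sum of the doubling indices on a torus with a circle symmetry

Subtask 10203 of helper245, by helper296: `N273.LT.Sum2`, `N273.LT.Sum3` for the density `f(x)` and
the lattice generated by `(L, α)` and `(0, 2π)`.
-/

set_option autoImplicit false

open MeasureTheory Set Filter Topology Function

namespace Pool.Agent.N296.DS

open Pool.Agent.Y291.DB
open Pool.Agent.N273.LT
open Pool.Agent.N245.DS (S_CNT S_CHAIN S_TWIST GoodT)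

/-- Bounds of the numbers of sign changes in terms of the length. -/
theorem cnt_bd {u : ℝ → ℝ} {Z lam : ℝ} (hZ : 0 < Z) (hlam : 0 < lam)
    (h : ∀ a b (n : ℕ), a ≤ b → Pool.Agent.N245.DS.Alt u (Ioo a b) n →
      (n : ℝ) ≤ Z * (1 + (b - a)) * Real.sqrt (1 + lam))
    (a b R : ℝ) (n : ℕ) (hR : b - a ≤ R) (hn : Alt u (Ioo a b) n) :
    (n : ℝ) ≤ (Z * (1 + R) / 2) / dl lam := by
  have hab : a < b := by
    obtain ⟨t, -, ht, -⟩ := hn
    have := ht 0 (Nat.zero_le _)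
    exact this.1.trans this.2
  have h1 := h a b n hab.le hn
  have hs : 0 < Real.sqrt (1 + lam) := Real.sqrt_pos.2 (by linarith)
  have h2 : Z * (1 + (b - a)) * Real.sqrt (1 + lam) ≤ Z * (1 + R) * Real.sqrt (1 + lam) := by
    gcongr
  have h3 : (Z * (1 + R) / 2) / dl lam = Z * (1 + R) * Real.sqrt (1 + lam) := by
    unfold dl
    field_simp
  rw [h3]
  exact h1.trans h2

theorem ub_tw {φ : ℝ × ℝ → ℝ} (hc : Continuous φ) {Z lam : ℝ} (hZ : 0 < Z) (hlam : 0 < lam)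
    (h1 : ∀ x a b (n : ℕ), a ≤ b → Pool.Agent.N245.DS.Alt (fun y => φ (x, y)) (Ioo a b) n →
      (n : ℝ) ≤ Z * (1 + (b - a)) * Real.sqrt (1 + lam))
    (h2 : ∀ y a b (n : ℕ), a ≤ b → Pool.Agent.N245.DS.Alt (fun x => φ (x, y)) (Ioo a b) n →
      (n : ℝ) ≤ Z * (1 + (b - a)) * Real.sqrt (1 + lam)) : UB (fun x y => φ (x, y)) := by
  have hd := dl_pos hlam
  have b1 : ∀ x, Bd (fun y => φ (x, y)) := fun x a b => bd_of fun n hn =>
    cnt_bd hZ hlam (h1 x) a b _ n le_rfl hn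
  have b2 : ∀ y, Bd (fun x => φ (x, y)) := fun y a b => bd_of fun n hn =>
    cnt_bd hZ hlam (h2 y) a b _ n le_rfl hn
  refine ⟨hc, b1, b2, fun w => ?_, fun w => ?_⟩
  · exact ⟨(Z * (1 + |2 * w|) / 2) / dl lam, fun x y => sc_le (b1 x) (by positivity) fun n hn =>
      cnt_bd hZ hlam (h1 x) _ _ |2 * w| n (by linarith [le_abs_self (2 * w)]) hn⟩
  · exact ⟨(Z * (1 + |2 * w|) / 2) / dl lam, fun x y => sc_le (b2 y) (by positivity) fun n hn =>
      cnt_bd hZ hlam (h2 y) _ _ |2 * w| n (by linarith [le_abs_self (2 * w)]) hn⟩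

/-- The doubling index and the growth exponents. -/
theorem doubling_zz (hCH : S_CHAIN) : ∃ K : ℝ, 0 < K ∧ ∀ {f : ℝ → ℝ} {L α : ℝ} (_ : Continuous f)
    (_ : 0 < L) (_ : ∀ x, f (x + L) = f x)
    {F ρm ρM : ℝ} (_ : ∀ x, |f x| ≤ F)
    (_ : 0 < ρm) (_ : ∀ p : ℝ × ℝ, ρm ≤ f p.1)
    (_ : ∀ p : ℝ × ℝ, f p.1 ≤ ρM) {C β A h : ℝ} (_ : 0 < C) (_ : 0 < β) (_ : β ≤ 1)
    (_ : 8 * β * Real.sqrt ρM ≤ C) (_ : 6 * C / Real.sqrt ρm + 3 * L + 6 * Real.pi ≤ A)
    (_ : 0 < h) (_ : h ≤ β) (_ : h ≤ 1 / (5 * (F + 1))) (N : ℕ) (_ : A + 1 ≤ N * h)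
    {lam : ℝ} {φ : ℝ × ℝ → ℝ}
    (_ : Eigen (fun p => f p.1) L α lam φ) (_ : UB (fun x y => φ (x, y))) (p : ℝ × ℝ) (X Y : ℝ),
    |X - p.1| ≤ β * dl lam → |Y - p.2| ≤ β * dl lam →
    0 < doubling (fun p => f p.1) L α φ p (C / Real.sqrt lam) →
    doubling (fun p => f p.1) L α φ p (C / Real.sqrt lam) * Real.log 2 ≤
      N * K * (1 + zz (fun x y => φ (x, y)) ((N + 2) * (h * dl lam)) X Y / (h * dl lam)) := by
  obtain ⟨K, hK, H⟩ := hCH
  refine ⟨K, hK, ?_⟩
  intro f L α hf hL hfL F ρm ρM hF hρ0 hρm hρM C β A h hC hβ hβ1 hβC hA hh hhβ hhF N hN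
    lam φ hφ hU p X Y hX hY ht
  have hF0 : 0 ≤ F := (abs_nonneg _).trans (hF 0)
  have hlam := hφ.pos
  have hδ := dl_pos hlam
  have hδ2 := dl_sq hlam
  set δ := dl lam with hδdef
  have hρc : Continuous fun p : ℝ × ℝ => f p.1 := hf.comp continuous_fst
  have hρx : ∀ p : ℝ × ℝ, (fun p : ℝ × ℝ => f p.1) (p.1 + L, p.2 + α) =
      (fun p : ℝ × ℝ => f p.1) p := fun p => by simp [hfL]
  have hρy : ∀ p : ℝ × ℝ, (fun p : ℝ × ℝ => f p.1) (p.1, p.2 + 2 * Real.pi) =
      (fun p : ℝ × ℝ => f p.1) p := fun p => rfl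
  obtain ⟨φx, φxx, φy, φyy, hS0⟩ := Pool.Agent.Y291.PA.sol_of_eigen hρc hφ
  have hS : Pool.Agent.Y291.PA.Sol2 (fun x y => lam * f x + (fun _ : ℝ => (0 : ℝ)) y)
      (fun x y => φ (x, y)) φx φxx φy φyy := by
    simpa using hS0
  obtain ⟨B, hB0, hB⟩ := bounded_of_per hL hφ.smooth.continuous hφ.perx hφ.pery
  have hbdd : ∀ s : Set (ℝ × ℝ), BddAbove ((fun q => |φ q|) '' s) := by
    intro s
    refine ⟨B, ?_⟩
    rintro _ ⟨q, _, rfl⟩
    exact hB q
  set S := sSup ((fun q => |φ q|) '' disc (fun p => f p.1) L α p (C / Real.sqrt lam)) with hSd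
  set T := sSup ((fun q => |φ q|) '' disc (fun p => f p.1) L α p (2 * (C / Real.sqrt lam)))
    with hT
  have hd : doubling (fun p => f p.1) L α φ p (C / Real.sqrt lam) =
    Real.logb 2 (T / S) := rfl
  have hS0 : 0 ≤ S := Real.sSup_nonneg (by rintro _ ⟨q, _, rfl⟩; exact abs_nonneg _)
  have hT0 : 0 ≤ T := Real.sSup_nonneg (by rintro _ ⟨q, _, rfl⟩; exact abs_nonneg _)
  have hTS : 0 < T / S := by
    refine lt_of_le_of_ne (by positivity) fun h0 => ?_
    rw [hd, ← h0, Real.logb_zero] at ht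
    exact lt_irrefl _ ht
  have hS1 : 0 < S := by
    refine lt_of_le_of_ne hS0 fun h0 => ?_
    rw [← h0, div_zero] at hTS
    exact lt_irrefl _ hTS
  have hsmall : ∀ v V : ℝ, |v| ≤ V → V ≤ F → |(h * δ) ^ 2 * (lam * v)| ≤ 1 / 100 := by
    intro v V hv hV
    have hV0 : 0 ≤ V := (abs_nonneg _).trans hv
    have h1 : δ ^ 2 * lam ≤ 1 / 4 := by
      have h2 : δ ^ 2 * (1 + lam) = 1 / 4 := by
        have h3 : 4 * δ ^ 2 * (1 + lam) = 1 := by
          rw [hδ2]
          field_simp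
        linarith
      nlinarith [sq_nonneg δ]
    have h2 : h ^ 2 * F ≤ 1 / 25 := by
      have h3 : h * (5 * (F + 1)) ≤ 1 := by
        rwa [le_div_iff₀ (by positivity)] at hhF
      have h4 : (h * (5 * (F + 1))) ^ 2 ≤ 1 := by
        rw [sq_le_one_iff_abs_le_one, abs_of_nonneg (by positivity)]
        exact h3
      have h5 : h ^ 2 * F * 25 ≤ (h * (5 * (F + 1))) ^ 2 := by
        have h6 : (h * (5 * (F + 1))) ^ 2 = h ^ 2 * 25 * (F + 1) ^ 2 := by ring
        rw [h6]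
        have h7 : F ≤ (F + 1) ^ 2 := by nlinarith
        have h8 : 0 ≤ h ^ 2 * 25 := by positivity
        nlinarith [mul_le_mul_of_nonneg_left h7 h8]
      linarith
    have h3 : (h * δ) ^ 2 * (lam * v) = (h ^ 2 * v) * (δ ^ 2 * lam) := by ring
    rw [h3, abs_mul, abs_mul, abs_of_nonneg (sq_nonneg h), abs_of_nonneg (by positivity : 0 ≤ δ ^ 2 * lam)]
    have h4 : h ^ 2 * |v| ≤ 1 / 25 :=
      (mul_le_mul_of_nonneg_left (hv.trans hV) (sq_nonneg h)).trans h2
    calc h ^ 2 * |v| * (δ ^ 2 * lam) ≤ 1 / 25 * (1 / 4) :=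
          mul_le_mul h4 h1 (by positivity) (by norm_num)
      _ = 1 / 100 := by norm_num
  have hr : 0 < h * δ := by positivity
  have hN0 : (0 : ℝ) ≤ N := Nat.cast_nonneg _
  have hX' := abs_le.1 hX
  have hY' := abs_le.1 hY
  have hhδ : h * δ ≤ β * δ := mul_le_mul_of_nonneg_right hhβ hδ.le
  have key := H (fun x => lam * f x) (fun _ => 0) (fun x y => φ (x, y)) φx φxx φy φyy
    (continuous_const.mul hf) continuous_const hS hU (h * δ)
    ((N + 2) * (h * δ)) X Y S N hr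
    (fun x => hsmall _ F (hF x) le_rfl) (fun y => by norm_num) le_rfl
    (fun x y hx hy => by
      refine le_csSup (hbdd _) ⟨(x, y), ?_, rfl⟩
      refine box_sub hL hρc hρx hρy hρ0 hρm hρM hC hβ hβ1 hβC hA hlam ?_
      have e1 : |x - p.1| ≤ |x - X| + |X - p.1| := abs_sub_le _ _ _
      have e2 : |y - p.2| ≤ |y - Y| + |Y - p.2| := abs_sub_le _ _ _
      rw [← hδdef]
      have : 0 < β * δ := by positivity
      linarith)
  set Z := zz (fun x y => φ (x, y)) ((N + 2) * (h * δ)) X Y with hZ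
  have h1 : T ≤ S * Real.exp (N * (K * (1 + Z / (h * δ)))) := by
    refine Real.sSup_le ?_ (by positivity)
    rintro _ ⟨q, hq, rfl⟩
    obtain ⟨m, n, h2, h3⟩ := double_sub hL hρc hρx hρy hρ0 hρm hρM hC hβ hβ1 hβC hA hlam hq
    rw [← hδdef] at h2 h3
    have hNδ : (A + β) * δ ≤ N * (h * δ) := by
      have : (A + β) * δ ≤ (N * h) * δ := mul_le_mul_of_nonneg_right (by linarith) hδ.le
      linarith
    have h4 := key (q.1 + m * L) (q.2 + m * α + n * (2 * Real.pi))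
      (by
        have e1 : |q.1 + m * L - X| ≤ |q.1 + m * L - p.1| + |p.1 - X| := abs_sub_le _ _ _
        rw [abs_sub_comm p.1 X] at e1
        linarith)
      (by
        have e1 : |q.2 + m * α + n * (2 * Real.pi) - Y| ≤
          |q.2 + m * α + n * (2 * Real.pi) - p.2| + |p.2 - Y| := abs_sub_le _ _ _
        rw [abs_sub_comm p.2 Y] at e1
        linarith)
    rwa [per_all hφ.perx hφ.pery m n q] at h4
  have h2 : T / S ≤ Real.exp (N * (K * (1 + Z / (h * δ)))) := by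
    rw [div_le_iff₀ hS1]
    linarith
  rw [hd, Real.logb, div_mul_cancel₀ _ (Real.log_pos one_lt_two).ne',
    Real.log_le_iff_le_exp hTS]
  refine h2.trans (le_of_eq ?_)
  congr 1
  ring

/-- The sum of the doubling indices over a family of discs of bounded multiplicity. -/
theorem sum_bound (hCNT : S_CNT) (hCH : S_CHAIN) {f : ℝ → ℝ} {L α : ℝ} (hf : Continuous f)
    (hL : 0 < L) (hfL : ∀ x, f (x + L) = f x) (hpos : ∀ x, 0 < f x) {C C₁ : ℝ} (hC : 0 < C) (hC1 : 0 < C₁) :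
    ∃ a : ℝ, 0 < a ∧ ∀ (lam : ℝ) (φ : ℝ × ℝ → ℝ), Eigen (fun p => f p.1) L α lam φ →
      ∀ (ι : Type) [Fintype ι] (c : ι → ℝ × ℝ),
      (∀ q : ℝ × ℝ, ({i | q ∈ disc (fun p => f p.1) L α (c i)
        (C / Real.sqrt lam)}.ncard : ℝ) ≤ C₁) →
      ∑ i, max (doubling (fun p => f p.1) L α φ (c i) (C / Real.sqrt lam)) 0 ≤
        a * (1 + lam) := by
  classical
  have hπ := Real.pi_pos
  have hlog : 0 < Real.log 2 := Real.log_pos one_lt_two
  have hρc : Continuous fun p : ℝ × ℝ => f p.1 := hf.comp continuous_fst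
  have hρx : ∀ p : ℝ × ℝ, (fun p : ℝ × ℝ => f p.1) (p.1 + L, p.2 + α) =
      (fun p : ℝ × ℝ => f p.1) p := fun p => by simp [hfL]
  have hρy : ∀ p : ℝ × ℝ, (fun p : ℝ × ℝ => f p.1) (p.1, p.2 + 2 * Real.pi) =
      (fun p : ℝ × ℝ => f p.1) p := fun p => rfl
  obtain ⟨ρm, hρm0, hρm⟩ := bounded_below_of_per hL hρc (fun p => hpos p.1) hρx hρy
  obtain ⟨ρM, hρM0', hρM'⟩ := bounded_of_per hL hρc hρx hρy
  have hρM : ∀ p : ℝ × ℝ, f p.1 ≤ ρM := fun p => (le_abs_self _).trans (hρM' p)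
  obtain ⟨F, hF0, hF'⟩ := bounded_of_per (L := L) (α := 0) hL (f := fun p : ℝ × ℝ => f p.1)
    (hf.comp continuous_fst) (fun p => by simp [hfL]) (fun p => rfl)
  have hF : ∀ x, |f x| ≤ F := fun x => hF' (x, 0)
  have hFle : ∀ x, f x ≤ F := fun x => (le_abs_self _).trans (hF x)
  have hFpos : 0 < F := (hpos 0).trans_le (hFle 0)
  obtain ⟨Z, hZ, HZ⟩ := hCNT F hFpos
  -- the constants
  obtain ⟨K, hK, H⟩ := doubling_zz hCH
  set β : ℝ := min 1 (C / (8 * (Real.sqrt ρM + 1))) with hβdef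
  have hβ : 0 < β := lt_min one_pos (by positivity)
  have hβ1 : β ≤ 1 := min_le_left _ _
  have hβC : 8 * β * Real.sqrt ρM ≤ C := by
    have h1 : β * (8 * (Real.sqrt ρM + 1)) ≤ C := by
      have := min_le_right 1 (C / (8 * (Real.sqrt ρM + 1)))
      rwa [le_div_iff₀ (by positivity)] at this
    nlinarith [Real.sqrt_nonneg ρM]
  set A : ℝ := 6 * C / Real.sqrt ρm + 3 * L + 6 * Real.pi with hAdef
  set h : ℝ := min β (1 / (5 * (F + 1))) with hhdef
  have hh : 0 < h := lt_min hβ (by positivity)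
  have hhβ : h ≤ β := min_le_left _ _
  have hhF : h ≤ 1 / (5 * (F + 1)) := min_le_right _ _
  set N : ℕ := ⌈(A + 1) / h⌉₊ with hNdef
  have hN : A + 1 ≤ N * h := by
    have := Nat.le_ceil ((A + 1) / h)
    rwa [div_le_iff₀ hh] at this
  set Aw : ℝ := (N + 2) * h with hAw
  have hAw0 : 0 < Aw := by positivity
  set R₁ : ℝ := 2 * Real.pi + 2 + 2 * Aw with hR₁
  set R₂ : ℝ := L + 2 + 2 * Aw with hR₂
  have hR₁0 : 0 < R₁ := by rw [hR₁]; positivity
  have hR₂0 : 0 < R₂ := by rw [hR₂]; positivity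
  set B₁ : ℝ := Z * (1 + R₁) / 2 with hB₁
  set B₂ : ℝ := Z * (1 + R₂) / 2 with hB₂
  have hB₁0 : 0 ≤ B₁ := by positivity
  have hB₂0 : 0 ≤ B₂ := by positivity
  set Tc : ℝ := C₁ * (N * K * ((L + 2) * (2 * Real.pi + 2) +
    (4 * Aw ^ 2 / h) * (B₁ * (L + 2) + B₂ * (2 * Real.pi + 2)))) with hTc
  have hTc0 : 0 ≤ Tc := by positivity
  refine ⟨Tc / (Real.log 2 * β ^ 2) + 1, by positivity, ?_⟩
  intro lam φ hφ ι _ c hmult
  have hlam := hφ.pos
  have hδ := dl_pos hlam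
  have hδle := dl_le hlam
  have hδ2 := dl_sq hlam
  set δ := dl lam with hδdef
  obtain ⟨st1, st2⟩ := HZ f L α lam φ hL hf hfL hpos hFle hφ
  have hU := ub_tw hφ.smooth.continuous hZ hlam st1 st2
  set w : ℝ := (N + 2) * (h * δ) with hw
  have hw0 : 0 < w := by positivity
  have hwA : w = Aw * δ := by rw [hw, hAw]; ring
  -- reduced centers
  have hred : ∀ i, ∃ p : ℝ × ℝ, p.1 ∈ Set.Ico 0 L ∧ p.2 ∈ Set.Ico 0 (2 * Real.pi) ∧
      ∀ q, gdist (fun p : ℝ × ℝ => f p.1) L α p q =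
        gdist (fun p : ℝ × ℝ => f p.1) L α (c i) q := by
    intro i
    obtain ⟨m, n, h1, h2⟩ := reduce hL α 0 0 (c i)
    rw [zero_add] at h1 h2
    exact ⟨_, h1, h2, fun q => gdist_shift_left (per_all hρx hρy) (c i) q m n⟩
  choose p hp1 hp2 hp3 using hred
  have hdisc : ∀ i r, disc (fun p : ℝ × ℝ => f p.1) L α (p i) r =
      disc (fun p : ℝ × ℝ => f p.1) L α (c i) r := by
    intro i r
    unfold disc
    simp only [hp3]
  have hdoub : ∀ i r, doubling (fun p : ℝ × ℝ => f p.1) L α φ (p i) r =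
      doubling (fun p : ℝ × ℝ => f p.1) L α φ (c i) r := by
    intro i r
    unfold doubling
    simp only [hdisc]
  set d : ι → ℝ := fun i =>
    max (doubling (fun p : ℝ × ℝ => f p.1) L α φ (c i) (C / Real.sqrt lam)) 0 with hd
  have hd0 : ∀ i, 0 ≤ d i := fun i => le_max_right _ _
  set Q : ι → Set (ℝ × ℝ) := fun i => Icc ((p i).1 - β * δ) ((p i).1 + β * δ) ×ˢ
    Icc ((p i).2 - β * δ) ((p i).2 + β * δ) with hQ
  have hQm : ∀ i, MeasurableSet (Q i) := fun i => measurableSet_Icc.prod measurableSet_Icc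
  set z₁ : ℝ × ℝ → ENNReal := fun P =>
    ∫⁻ τ in Icc (-w) w, (n1 (fun x y => φ (x, y)) w (P.1 + τ) P.2 : ENNReal) with hz₁
  set z₂ : ℝ × ℝ → ENNReal := fun P =>
    ∫⁻ τ in Icc (-w) w, (n2 (fun x y => φ (x, y)) w P.1 (P.2 + τ) : ENNReal) with hz₂
  have mz₁ : Measurable z₁ := z1_meas hU hw0
  have mz₂ : Measurable z₂ := z2_meas hU hw0
  set E : ℝ × ℝ → ENNReal := fun P => ENNReal.ofReal (N * K) *
    (1 + ENNReal.ofReal (1 / (h * δ)) * (z₁ P + z₂ P)) with hE
  have mE : Measurable E :=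
    measurable_const.mul (measurable_const.add (measurable_const.mul (mz₁.add mz₂)))
  have hβδ : β * δ ≤ 1 := by nlinarith
  -- pointwise estimate
  have hpt : ∀ i, ∀ P ∈ Q i, ENNReal.ofReal (d i * Real.log 2) ≤ E P := by
    intro i P hP
    obtain ⟨hP1, hP2⟩ := hP
    have a1 : |P.1 - (p i).1| ≤ β * δ := abs_le.2 ⟨by linarith [hP1.1], by linarith [hP1.2]⟩
    have a2 : |P.2 - (p i).2| ≤ β * δ := abs_le.2 ⟨by linarith [hP2.1], by linarith [hP2.2]⟩
    rcases le_or_gt (doubling (fun p : ℝ × ℝ => f p.1) L α φ (c i) (C / Real.sqrt lam)) 0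
      with hneg | hpos'
    · have : d i = 0 := max_eq_right hneg
      rw [this, zero_mul, ENNReal.ofReal_zero]
      exact bot_le
    · have e1 : d i = doubling (fun p : ℝ × ℝ => f p.1) L α φ (p i) (C / Real.sqrt lam) := by
        rw [hdoub]
        exact max_eq_left hpos'.le
      have h1 := H hf hL hfL hF hρm0 hρm hρM hC hβ hβ1 hβC le_rfl hh hhβ hhF N hN hφ hU
        (p i) P.1 P.2 a1 a2 (by rw [hdoub]; exact hpos')
      rw [← e1, ← hδdef, ← hw] at h1
      refine (ENNReal.ofReal_le_ofReal h1).trans ?_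
      rw [ENNReal.ofReal_mul (by positivity), hE]
      simp only
      gcongr
      refine ENNReal.ofReal_add_le.trans ?_
      rw [ENNReal.ofReal_one, div_eq_mul_one_div, mul_comm, ENNReal.ofReal_mul (by positivity)]
      gcongr
      exact ofReal_zz hU hw0 P.1 P.2
  -- integration over the boxes
  have hvol : ∀ i, volume (Q i) = ENNReal.ofReal ((2 * β * δ) ^ 2) := by
    intro i
    rw [hQ]
    simp only
    rw [Measure.volume_eq_prod, Measure.prod_prod, Real.volume_Icc, Real.volume_Icc,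
      ← ENNReal.ofReal_mul (by nlinarith)]
    congr 1
    ring
  have hbox : ∀ i, ENNReal.ofReal (d i * Real.log 2 * (2 * β * δ) ^ 2) ≤ ∫⁻ P in Q i, E P := by
    intro i
    calc ENNReal.ofReal (d i * Real.log 2 * (2 * β * δ) ^ 2)
        = ∫⁻ _ in Q i, ENNReal.ofReal (d i * Real.log 2) := by
          rw [setLIntegral_const, hvol, ← ENNReal.ofReal_mul (mul_nonneg (hd0 i) hlog.le)]
      _ ≤ _ := setLIntegral_mono mE fun P hP => hpt i P hP
  set BB : Set (ℝ × ℝ) := Icc (-1) (L + 1) ×ˢ Icc (-1) (2 * Real.pi + 1) with hBB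
  have hBBm : MeasurableSet BB := measurableSet_Icc.prod measurableSet_Icc
  have hsum : ∑ i, ∫⁻ P in Q i, E P ≤ ENNReal.ofReal C₁ * ∫⁻ P in BB, E P := by
    have e1 : ∑ i, ∫⁻ P in Q i, E P = ∫⁻ P, ∑ i, (Q i).indicator E P := by
      rw [lintegral_finsetSum _ fun i _ => mE.indicator (hQm i)]
      refine Finset.sum_congr rfl fun i _ => ?_
      rw [lintegral_indicator (hQm i)]
    rw [e1, ← lintegral_const_mul _ mE, ← lintegral_indicator hBBm]
    refine lintegral_mono fun P => ?_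
    have e2 : ∑ i, (Q i).indicator E P = ((Finset.univ.filter fun i => P ∈ Q i).card : ENNReal) * E P := by
      rw [Finset.card_filter]
      push_cast
      rw [Finset.sum_mul]
      refine Finset.sum_congr rfl fun i _ => ?_
      by_cases hP : P ∈ Q i
      · rw [indicator_of_mem hP, if_pos hP, one_mul]
      · rw [indicator_of_notMem hP, if_neg hP, zero_mul]
    rw [e2]
    rcases (Finset.univ.filter fun i => P ∈ Q i).eq_empty_or_nonempty with h3 | h3
    · rw [h3]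
      simp
    · obtain ⟨i, hi⟩ := h3
      rw [Finset.mem_filter] at hi
      obtain ⟨hP1, hP2⟩ := hi.2
      have hPB : P ∈ BB := by
        refine ⟨⟨?_, ?_⟩, ⟨?_, ?_⟩⟩
        · linarith [(hp1 i).1, hP1.1]
        · linarith [(hp1 i).2, hP1.2]
        · linarith [(hp2 i).1, hP2.1]
        · linarith [(hp2 i).2, hP2.2]
      rw [indicator_of_mem hPB]
      have h5 : ((Finset.univ.filter fun i => P ∈ Q i).card : ℝ) ≤ C₁ := by
        refine le_trans ?_ (hmult P)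
        have h6 : ((Finset.univ.filter fun i => P ∈ Q i) : Set ι) ⊆
            {i | P ∈ disc (fun p : ℝ × ℝ => f p.1) L α (c i) (C / Real.sqrt lam)} := by
          intro j hj
          rw [Finset.mem_coe, Finset.mem_filter] at hj
          obtain ⟨hj1, hj2⟩ := hj.2
          show P ∈ disc (fun p : ℝ × ℝ => f p.1) L α (c j) (C / Real.sqrt lam)
          rw [← hdisc]
          have h7 : |P.1 - (p j).1| ≤ β * δ := abs_le.2 ⟨by linarith [hj1.1], by linarith [hj1.2]⟩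
          have h8 : |P.2 - (p j).2| ≤ β * δ := abs_le.2 ⟨by linarith [hj2.1], by linarith [hj2.2]⟩
          have h9 := box_sub hL hρc hρx hρy hρm0 hρm hρM hC hβ hβ1 hβC le_rfl hlam (p0 := p j)
            (x := P.1) (y := P.2) (by
              rw [← hδdef]
              have : 0 < β * δ := by positivity
              linarith)
          exact h9
        have h7 := Set.ncard_le_ncard h6 (Set.toFinite _)
        rw [Set.ncard_coe_finset] at h7
        exact_mod_cast h7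
      rw [← ENNReal.ofReal_natCast]
      gcongr
  -- the integral over the torus
  have hB₁M : ∀ x s (n : ℕ), Alt (fun t => φ (x, t))
      (Ioo s (s + (2 * Real.pi + 1 - (-1) + 4 * w))) n → (n : ℝ) ≤ B₁ / δ := by
    intro x s n hn
    have h1 := cnt_bd hZ hlam (st1 x) _ _ R₁ n (by rw [hwA, hR₁]; nlinarith) hn
    rw [← hδdef] at h1
    exact h1
  have hB₂M : ∀ y s (n : ℕ), Alt (fun t => φ (t, y))
      (Ioo s (s + (L + 1 - (-1) + 4 * w))) n → (n : ℝ) ≤ B₂ / δ := by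
    intro y s n hn
    have h1 := cnt_bd hZ hlam (st2 y) _ _ R₂ n (by rw [hwA, hR₂]; nlinarith) hn
    rw [← hδdef] at h1
    exact h1
  have hI₁ : ∫⁻ P in BB, z₁ P ≤ ENNReal.ofReal (2 * w * (B₁ / δ) * (2 * w) * (L + 1 - (-1))) :=
    I1_bound hU hw0 (by linarith) (by positivity) hB₁M
  have hI₂ : ∫⁻ P in BB, z₂ P ≤
      ENNReal.ofReal (2 * w * (B₂ / δ) * (2 * w) * (2 * Real.pi + 1 - (-1))) :=
    I2_bound hU hw0 (by linarith) (by positivity) hB₂M
  have l1 : L + 1 - (-1) = L + 2 := by ring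
  have l2 : 2 * Real.pi + 1 - (-1) = 2 * Real.pi + 2 := by ring
  rw [l1] at hI₁
  rw [l2] at hI₂
  have hBE : ∫⁻ P in BB, E P ≤ ENNReal.ofReal (N * K * ((L + 2) * (2 * Real.pi + 2) +
      (4 * Aw ^ 2 / h) * (B₁ * (L + 2) + B₂ * (2 * Real.pi + 2)))) := by
    have hvB : ∫⁻ _ in BB, (1 : ENNReal) = ENNReal.ofReal ((L + 2) * (2 * Real.pi + 2)) := by
      rw [setLIntegral_one, hBB, Measure.volume_eq_prod, Measure.prod_prod, Real.volume_Icc,
        Real.volume_Icc, ← ENNReal.ofReal_mul (by linarith)]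
      congr 1
      ring
    have k1 : Measurable fun P => z₁ P + z₂ P := mz₁.add mz₂
    have k2 : Measurable fun P => ENNReal.ofReal (1 / (h * δ)) * (z₁ P + z₂ P) :=
      measurable_const.mul k1
    have k3 : Measurable fun P => 1 + ENNReal.ofReal (1 / (h * δ)) * (z₁ P + z₂ P) :=
      measurable_const.add k2
    have k4 : Measurable fun _ : ℝ × ℝ => (1 : ENNReal) := measurable_const
    rw [hE]
    simp only
    have e3 : ENNReal.ofReal (N * K * ((L + 2) * (2 * Real.pi + 2) +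
        (4 * Aw ^ 2 / h) * (B₁ * (L + 2) + B₂ * (2 * Real.pi + 2)))) =
        ENNReal.ofReal (N * K) * ENNReal.ofReal ((L + 2) * (2 * Real.pi + 2) +
        (4 * Aw ^ 2 / h) * (B₁ * (L + 2) + B₂ * (2 * Real.pi + 2))) :=
      ENNReal.ofReal_mul (by positivity)
    rw [lintegral_const_mul _ k3, lintegral_add_left k4, lintegral_const_mul _ k1,
      lintegral_add_left mz₁, hvB, e3]
    refine mul_le_mul' le_rfl ?_
    rw [ENNReal.ofReal_add (by positivity) (by positivity)]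
    refine add_le_add le_rfl ?_
    refine (mul_le_mul' le_rfl (add_le_add hI₁ hI₂)).trans ?_
    rw [← ENNReal.ofReal_add (by positivity) (by positivity), ← ENNReal.ofReal_mul (by positivity)]
    refine ENNReal.ofReal_le_ofReal (le_of_eq ?_)
    rw [hwA]
    field_simp
    ring
  have hfin : ENNReal.ofReal (∑ i, d i * Real.log 2 * (2 * β * δ) ^ 2) ≤ ENNReal.ofReal Tc := by
    rw [ENNReal.ofReal_sum_of_nonneg fun i _ => mul_nonneg (mul_nonneg (hd0 i) hlog.le) (sq_nonneg _)]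
    refine (Finset.sum_le_sum fun i _ => hbox i).trans (hsum.trans ?_)
    rw [hTc, ENNReal.ofReal_mul hC1.le]
    gcongr
  rw [ENNReal.ofReal_le_ofReal_iff hTc0, ← Finset.sum_mul, ← Finset.sum_mul] at hfin
  have h4 : (∑ i, d i) * (Real.log 2 * β ^ 2) * (1 / (1 + lam)) ≤ Tc := by
    rw [← hδ2]
    calc (∑ i, d i) * (Real.log 2 * β ^ 2) * (4 * δ ^ 2)
        = (∑ i, d i) * Real.log 2 * (2 * β * δ) ^ 2 := by ring
      _ ≤ Tc := hfin
  have h5 : (∑ i, d i) ≤ Tc / (Real.log 2 * β ^ 2) * (1 + lam) := by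
    rw [mul_one_div, div_le_iff₀ (by linarith)] at h4
    rw [div_mul_eq_mul_div, le_div_iff₀ (by positivity)]
    exact h4
  linarith

theorem twist : Pool.Agent.N245.DS.S_CNT → Pool.Agent.N245.DS.S_CHAIN →
    Pool.Agent.N245.DS.S_TWIST := by
  intro hCNT hCH f L α hL hf hfL hpos C C₁ C₂ hC hC₁ hC₂
  obtain ⟨a, ha, h⟩ := sum_bound (α := α) hCNT hCH hf hL hfL hpos hC hC₁
  refine ⟨a * (1 + C₂), by positivity, fun lam φ hφ ι _ c hc => ?_⟩
  have hlam := hφ.pos
  have h1 : (0 : ℝ) < Fintype.card ι := lt_of_lt_of_le (by positivity) hc.lower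
  have h2 : (1 : ℝ) ≤ Fintype.card ι := by
    have h3 : 0 < Fintype.card ι := by exact_mod_cast h1
    exact_mod_cast h3
  have h4 : lam ≤ C₂ * Fintype.card ι := by
    have := hc.lower
    rw [inv_mul_le_iff₀ hC₂] at this
    exact this
  rw [div_le_iff₀ h1]
  calc ∑ i, doubling (fun p => f p.1) L α φ (c i) (C / Real.sqrt lam)
      ≤ ∑ i, max (doubling (fun p => f p.1) L α φ (c i) (C / Real.sqrt lam)) 0 :=
        Finset.sum_le_sum fun i _ => le_max_left _ _
    _ ≤ a * (1 + lam) := h lam φ hφ ι c hc.mult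
    _ ≤ a * (1 + C₂) * Fintype.card ι := by
        have h5 : 1 + lam ≤ (1 + C₂) * Fintype.card ι := by linarith
        calc a * (1 + lam) ≤ a * ((1 + C₂) * Fintype.card ι) :=
              mul_le_mul_of_nonneg_left h5 ha.le
          _ = _ := by ring

end Pool.Agent.N296.DS
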